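import Pool.Agent.TH680.EB.Pad

/-! Complements in exponential time and space. -/

set_option autoImplicit false

namespace Pool.Agent.TH680.EB

open Pool.Agent.NPC Pool.Agent.H620R2.Gauge Pool.Agent.H622R2 Pool.Agent.H622R2.Exp

/-- the complementary algorithm -/
noncomputable def cAlg (M : Alg) : Alg where
  D := fun y => if (M.D y).head? = some false then M.D y else
    [true, decide (¬ (M.D y).tail = [true])]
  poly := by
    apply polyTime_of_poly_list
    have h1 := poly_of_polyTime M.poly
    exact Poly.ite (Poly.decide_eq (Poly.head? h1) (NPC.Poly.const _)) h1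
      (Poly.cons (NPC.Poly.const _) (Poly.cons (Poly.decide_not (Poly.decide_eq (Poly.tail h1)
        (NPC.Poly.const _))) (NPC.Poly.const _)))
  p := M.p

theorem cAlg_run (M : Alg) (A : Oracle) (x : List Bool) : ∀ (n : ℕ) (a : List Bool),
    (cAlg M).run A x n a = (M.run A x n a).map (fun z => [decide (¬ z = [true])]) := by
  intro n
  induction n with
  | zero => intro a; rfl
  | succ n ih =>
    intro a
    rw [A2.run_succ, A2.run_succ]
    by_cases h : (M.D (pairBits x a)).head? = some false
    · have h1 : (cAlg M).D (pairBits x a) = M.D (pairBits x a) := if_pos h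
      rw [h1, if_pos h, if_pos h, ih]
    · have h1 : (cAlg M).D (pairBits x a) =
          [true, decide (¬ (M.D (pairBits x a)).tail = [true])] := if_neg h
      rw [h1, if_neg (by simp), if_neg h]
      rfl

theorem time_compl {E : Set (Polynomial ℕ)} {A : Oracle} {L : Set (List Bool)}
    (h : InTime E A L) : InTime E A Lᶜ := by
  obtain ⟨M, q, hq, h1⟩ := h
  refine ⟨cAlg M, q, hq, fun x => ?_⟩
  obtain ⟨z, h2, h3⟩ := h1 x
  refine ⟨[decide (¬ z = [true])], by rw [cAlg_run, h2]; rfl, ?_⟩
  rw [Set.mem_compl_iff, h3]
  simp

/-- the complementary algorithm -/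
noncomputable def cS (M : SAlg) : SAlg where
  act := fun y => if (M.act y).head? = some true then
    [true, decide (¬ (M.act y).tail = [true])] else M.act y
  act_poly := by
    apply polyTime_of_poly_list
    have h1 := poly_of_polyTime M.act_poly
    exact Poly.ite (Poly.decide_eq (Poly.head? h1) (NPC.Poly.const _))
      (Poly.cons (NPC.Poly.const _) (Poly.cons (Poly.decide_not (Poly.decide_eq (Poly.tail h1)
        (NPC.Poly.const _))) (NPC.Poly.const _))) h1
  next := M.next
  next_poly := M.next_poly

theorem cS_ask (M : SAlg) (y q : List Bool) : (cS M).act y = false :: q ↔ M.act y = false :: q := by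
  change (if (M.act y).head? = some true then
    [true, decide (¬ (M.act y).tail = [true])] else M.act y) = false :: q ↔ _
  split_ifs with h
  · constructor
    · intro h1
      simp at h1
    · intro h1
      rw [h1] at h
      simp at h
  · rfl

theorem cS_reach (M : SAlg) (A : Oracle) (x s : List Bool) :
    (cS M).Reach A x s ↔ M.Reach A x s := by
  constructor
  · intro h
    induction h with
    | start => exact SAlg.Reach.start
    | step _ hq ih => exact SAlg.Reach.step ih ((cS_ask M _ _).1 hq)
  · intro h
    induction h with
    | start => exact SAlg.Reach.start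
    | step _ hq ih => exact SAlg.Reach.step (M := cS M) ih ((cS_ask M _ _).2 hq)

theorem space_compl {E : Set (Polynomial ℕ)} {A : Oracle} {L : Set (List Bool)}
    (h : InSpace E A L) : InSpace E A Lᶜ := by
  obtain ⟨M, q, hq, h1⟩ := h
  refine ⟨cS M, q, hq, fun x => ⟨fun s hs => (h1 x).1 s ((cS_reach M A x s).1 hs), ?_⟩⟩
  obtain ⟨s, z, h2, h3, h4⟩ := (h1 x).2
  refine ⟨s, [decide (¬ z = [true])], (cS_reach M A x s).2 h2, ?_, ?_⟩
  · change (if (M.act (pairBits x s)).head? = some true then
      [true, decide (¬ (M.act (pairBits x s)).tail = [true])] else M.act (pairBits x s)) = _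
    rw [h3]
    rfl
  · rw [Set.mem_compl_iff, h4]
    simp

end Pool.Agent.TH680.EB
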