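import Pool.Agent.TH680.EL.Law
import Pool.Agent.TH680.SE.Engine
import Pool.Agent.W900.IE.Cyl
import Pool.Agent.W900.BC.Pos

/-! Witnesses among fair bits. -/

set_option autoImplicit false

namespace Pool.Agent.TH680.EB

open Pool.Agent.NPC Pool.Agent.H620R2.Gauge Pool.Agent.H591R3.PHG MeasureTheory ProbabilityTheory
  Finset Pool.Agent.W900.IE Pool.Agent.W900.PS Pool.Agent.H622R2 Pool.Agent.W900
  Pool.Agent.H622R2.Exp H568R2
open Pool.Agent.TH680.OD (join sfx rr length_sfx sfx_inj)
open Pool.Agent.TH680.SE (wit wit_dep real_match step moment pair_prob card_strs)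
open Pool.Agent.TH680.EL (xb sat dc_xb ver ask chk xb_room)

/-- fair coins -/
noncomputable def half : List Bool → unitInterval := fun _ => ⟨1 / 2, by norm_num, by norm_num⟩

theorem ber_half (z : List Bool) (b : Bool) : ber (half z) b = 1 / 2 := by
  unfold ber half
  cases b <;> norm_num

/-- the strings whose bits decide on a witness -/
def grp (n : ℕ) (w : List Bool) : Finset (List Bool) :=
  (Finset.range (n + 1)).image (fun i => true :: (w ++ sfx n i))

/-- there is a witness -/
def EWit (n : ℕ) : Set Oracle := {A | ∃ w ∈ DT.strs n, A ∈ wit (grp n w) (fun _ => true)}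

theorem lt_two_pow' (n : ℕ) : n + 1 ≤ 2 ^ n := Nat.lt_two_pow_self

theorem card_grp (n : ℕ) (w : List Bool) : (grp n w).card = n + 1 := by
  unfold grp
  rw [Finset.card_image_of_injOn, Finset.card_range]
  intro i hi j hj h
  rw [Finset.coe_range, Set.mem_Iio] at hi hj
  have h1 := lt_two_pow' n
  have h2 : w ++ sfx n i = w ++ sfx n j := (List.cons.inj h).2
  exact sfx_inj (by omega) (by omega) (List.append_cancel_left h2)

theorem grp_sep (n : ℕ) {w w' : List Bool} (hw : w ∈ DT.strs n) (hw' : w' ∈ DT.strs n)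
    (h : w ≠ w') : Disjoint (grp n w) (grp n w') := by
  rw [Finset.disjoint_left]
  intro z hz hz'
  unfold grp at hz hz'
  rw [Finset.mem_image] at hz hz'
  obtain ⟨i, _, rfl⟩ := hz
  obtain ⟨j, _, h2⟩ := hz'
  rw [DT.mem_strs] at hw hw'
  have h3 := (List.cons.inj h2).2
  exact h (List.append_inj h3 (by rw [hw, hw'])).1.symm

theorem grp_len (n : ℕ) {w z : List Bool} (hw : w ∈ DT.strs n) (hz : z ∈ grp n w) :
    z.length = 2 * n + 1 := by
  unfold grp at hz
  rw [Finset.mem_image] at hz
  obtain ⟨i, _, rfl⟩ := hz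
  rw [DT.mem_strs] at hw
  rw [List.length_cons, List.length_append, length_sfx, hw]
  omega

theorem mem_ewit {n : ℕ} {A : Oracle} : A ∈ EWit n ↔ ∃ w : List Bool, w.length = n ∧
    ∀ i < n + 1, A (true :: (w ++ sfx n i)) = true := by
  unfold EWit
  rw [Set.mem_ofPred_eq]
  refine exists_congr fun w => and_congr DT.mem_strs ?_
  unfold SE.wit grp
  rw [Set.mem_ofPred_eq]
  simp only [Finset.mem_image, Finset.mem_range, forall_exists_index, and_imp,
    forall_apply_eq_imp_iff₂]

theorem sat_mem (b : Bool) (O : Oracle) {n N K : ℕ} (hn : n ≤ N) :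
    xb n N K ∉ sat b O ↔ ∀ w : List Bool, w.length = n →
      ∃ i < K, O (true :: (w ++ sfx (N - n) i)) = b := by
  have hver : ∀ w : List Bool, ver b O (pairBits w (xb n N K)) = [true] ↔
      (N ≤ w.length ∧ K ≤ w.length) ∧
        ∀ i < K, (O (true :: (w.take n ++ sfx (N - n) i)) ^^ b) = true := by
    intro w
    unfold ver ask chk
    simp only [unpair_pairBits, dc_xb, List.cons.injEq, and_true,
      Bool.and_eq_true, decide_eq_true_eq, List.all_eq_true, List.mem_map, List.mem_range,
      forall_exists_index, and_imp]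
    constructor
    · rintro ⟨⟨_, h1, h2⟩, h⟩
      refine ⟨⟨h1, h2⟩, fun i hi => ?_⟩
      have h3 := h _ _ i (by omega) rfl rfl
      rw [min_eq_left h1, min_eq_left (hn.trans h1)] at h3
      exact h3
    · rintro ⟨⟨h1, h2⟩, h⟩
      refine ⟨⟨hn, h1, h2⟩, ?_⟩
      rintro a q i hi rfl rfl
      rw [min_eq_left h1, min_eq_left (hn.trans h1)]
      exact h i (by omega)
  unfold sat
  rw [Set.mem_ofPred_eq]
  push Not
  constructor
  · intro h w hw
    by_contra hcon
    push Not at hcon
    refine h (w ++ List.replicate (N + K) true) ?_ ((hver _).2 ⟨⟨by simp; omega, by simp; omega⟩,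
      fun i hi => ?_⟩)
    · have := xb_room n N K hn
      rw [List.length_append, List.length_replicate]
      omega
    · have h1 : (w ++ List.replicate (N + K) true).take n = w := by
        rw [← hw, List.take_left]
      rw [h1]
      have := hcon i hi
      revert this
      cases O (true :: (w ++ sfx (N - n) i)) <;> cases b <;> simp
  · intro h w _ hcon
    obtain ⟨⟨h1, _⟩, h2⟩ := (hver w).1 hcon
    obtain ⟨i, hi, h3⟩ := h (w.take n) (by rw [List.length_take]; omega)
    have h4 := h2 i hi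
    rw [h3] at h4
    cases b <;> simp at h4

/-- the instance number `n` -/
def yn (n : ℕ) : List Bool := xb n (2 * n) (n + 1)

theorem yn_mem (n : ℕ) (O : Oracle) : yn n ∉ sat false O ↔ O ∉ EWit n := by
  unfold yn
  rw [sat_mem false O (by omega : n ≤ 2 * n), mem_ewit]
  have h1 : 2 * n - n = n := by omega
  rw [h1]
  push Not
  refine forall₂_congr fun w _ => exists_congr fun i => and_congr_right fun _ => ?_
  cases O (true :: (w ++ sfx n i)) <;> simp

theorem fair {n : ℕ} {C : Set Oracle} {D : Finset (List Bool)} (hC : DepO D C)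
    (hD : ∀ z ∈ D, z.length ≤ n) {Acc : Set Oracle} (hA : ∃ F, DepO F Acc)
    (hcert : ∀ A ∈ Acc, ∃ T : Finset (List Bool), 2 * T.card ≤ 2 ^ n ∧
      ∀ A', (∀ z ∈ T, A' z = A z) → A' ∈ Acc) :
    (indep half).real C ≤ 768 * (indep half).real (C ∩ {A | ¬ (A ∈ Acc ↔ A ∉ EWit n)}) := by
  classical
  set t : Oracle := fun _ => true with ht
  set W := DT.strs n with hW
  have hWc : W.card = 2 ^ n := card_strs n
  set E : Set Oracle := {A | A ∈ Acc ↔ ∀ w ∈ W, A ∉ wit (grp n w) t} with hE
  set G : Set Oracle := C ∩ E with hG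
  obtain ⟨F, hF⟩ := hA
  set D' : Finset (List Bool) := D ∪ (F ∪ W.biUnion (grp n)) with hD'
  have hGd : DepO D' G := by
    intro A A' h hA
    have h1 : A ∈ Acc ↔ A' ∈ Acc :=
      ⟨hF A A' fun z hz => h z (by simp [hD', hz]), hF A' A fun z hz => (h z (by simp [hD', hz])).symm⟩
    have h3 : ∀ w ∈ W, (A ∈ wit (grp n w) t ↔ A' ∈ wit (grp n w) t) := by
      intro w hw
      have h4 : ∀ z ∈ grp n w, A z = A' z := fun z hz =>
        h z (Finset.mem_union_right _ (Finset.mem_union_right _
          (Finset.mem_biUnion.2 ⟨w, hw, hz⟩)))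
      exact ⟨wit_dep _ _ A A' h4, wit_dep _ _ A' A fun z hz => (h4 z hz).symm⟩
    refine ⟨hC A A' (fun z hz => h z (Finset.mem_union_left _ hz)) hA.1, ?_⟩
    show A' ∈ Acc ↔ ∀ w ∈ W, A' ∉ wit (grp n w) t
    have h5 : A ∈ Acc ↔ ∀ w ∈ W, A ∉ wit (grp n w) t := hA.2
    rw [← h1, h5]
    exact forall₂_congr fun w hw => not_congr (h3 w hw)
  have hGC : G ⊆ C := Set.inter_subset_left
  have hCG : C \ G = C ∩ {A | ¬ (A ∈ Acc ↔ A ∉ EWit n)} := by
    ext A
    rw [hG, hE]
    simp only [Set.mem_sdiff, Set.mem_inter_iff, Set.mem_ofPred_eq, EWit]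
    constructor
    · rintro ⟨h1, h2⟩
      refine ⟨h1, fun h3 => h2 ⟨h1, h3.trans ?_⟩⟩
      push Not
      rfl
    · rintro ⟨h1, h2⟩
      refine ⟨h1, fun h3 => h2 (h3.2.trans ?_)⟩
      push Not
      rfl
  rw [← hCG]
  set c : ℝ := (indep half).real C with hc
  have hc0 : 0 ≤ c := measureReal_nonneg
  by_cases hbig : (1 / 4 : ℝ) * c < (indep half).real (C \ G)
  · linarith
  push Not at hbig
  set π : ℝ := (1 / 2) ^ (n + 1) with hπ
  have hπ0 : 0 ≤ π := by positivity
  have hprod : ∀ w ∈ W, ∏ z ∈ grp n w, ber (half z) (t z) = π := by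
    intro w _
    rw [Finset.prod_congr rfl fun z _ => ber_half z (t z), Finset.prod_const, card_grp]
  have hmu : (W.card : ℝ) * π = 1 / 2 := by
    rw [hWc, hπ]
    push_cast
    rw [pow_succ, ← mul_assoc, ← mul_pow]
    norm_num
  have hdis : ∀ w ∈ W, Disjoint D (grp n w) := by
    intro w hw
    rw [Finset.disjoint_left]
    intro z hz hz'
    have h1 := hD z hz
    have h2 := grp_len n hw hz'
    omega
  have h1 := step half hC hGd hGC (W := W) (g := grp n) (t := t) (Acc := Acc) hπ0
    (fun w hw w' hw' hne => grp_sep n hw hw' hne) hdis hprod (by rw [hmu]) (fun A hA => hA.2)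
    (by rw [hWc]; exact hcert) (ε := 1 / 4) hbig le_rfl
  rw [hmu] at h1
  have hCm := hC.measurable
  have hGm := hGd.measurable
  have h2 := moment (indep half) W (fun w => wit (grp n w) t) (fun w => (wit_dep _ _).measurable)
    (X := C \ G) (C := C) (hCm.diff hGm) hCm Set.sdiff_subset (K := 24) (by norm_num)
  have h3 : ∑ i ∈ W, ∑ j ∈ W, (indep half).real (C ∩ (wit (grp n i) t ∩ wit (grp n j) t)) ≤
      3 / 4 * c := by
    have h4 : ∀ i ∈ W, ∑ j ∈ W, (indep half).real (C ∩ (wit (grp n i) t ∩ wit (grp n j) t)) ≤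
        c * π + W.card * (c * (π * π)) := by
      intro i hi
      rw [← Finset.add_sum_erase W _ hi]
      refine add_le_add ?_ ?_
      · rw [Set.inter_self, real_match half hC t (grp n i) (hdis i hi), hprod i hi]
      · have h5 : ∀ j ∈ W.erase i, (indep half).real
            (C ∩ (wit (grp n i) t ∩ wit (grp n j) t)) = c * (π * π) := by
          intro j hj
          rw [Finset.mem_erase] at hj
          rw [pair_prob half hC (hdis i hi) (hdis j hj.2) (grp_sep n hi hj.2 (Ne.symm hj.1)),
            hprod i hi, hprod j hj.2]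
        rw [Finset.sum_congr rfl h5, Finset.sum_const, nsmul_eq_mul]
        refine mul_le_mul_of_nonneg_right ?_ (by positivity)
        exact_mod_cast Finset.card_le_card (Finset.erase_subset i W)
    refine (Finset.sum_le_sum h4).trans ?_
    rw [Finset.sum_const, nsmul_eq_mul]
    have e1 : (W.card : ℝ) * (c * π + W.card * (c * (π * π))) =
        c * (W.card * π) + c * (W.card * π) * (W.card * π) := by ring
    rw [e1, hmu]
    linarith
  have h6 : (∑ i ∈ W, ∑ j ∈ W, (indep half).real (C ∩ (wit (grp n i) t ∩ wit (grp n j) t))) / 24 ≤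
      1 / 32 * c := by linarith
  linarith

/-- the bits of the prefix -/
theorem pre_dep {N₀ : ℕ} (a : Fin N₀ → Bool) :
    DepO ((Finset.range N₀).image str) {A : Oracle | pre N₀ A = a} := by
  intro A A' h hA
  rw [Set.mem_ofPred_eq] at hA ⊢
  rw [← hA]
  funext i
  exact (h (str i) (Finset.mem_image.2 ⟨i, Finset.mem_range.2 i.2, rfl⟩)).symm

open Classical in
theorem fair_ex {n : ℕ} {N₀ M : ℕ} (hN₀ : N₀ + 1 ≤ 2 ^ n) (a : Fin N₀ → Bool) {Acc : Set Oracle}
    (hA : ∃ F, DepO F Acc) (hcert : ∀ A ∈ Acc, ∃ T : Finset (List Bool), 2 * T.card ≤ 2 ^ n ∧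
      ∀ A', (∀ z ∈ T, A' z = A z) → A' ∈ Acc) (Φ : (Fin M → Bool) → Prop)
    (hΦ : ∀ A : Oracle, pre N₀ A = a → (Φ (fun i => A (str (N₀ + i.1))) ↔
      (A ∈ Acc ↔ A ∉ EWit n))) :
    Ex unif (fun z => if Φ z then (1 : ℝ) else 0) ≤ 1 - 1 / 768 := by
  have h1 := fair (n := n) (pre_dep a) (by
    intro z hz
    rw [Finset.mem_image] at hz
    obtain ⟨i, hi, rfl⟩ := hz
    rw [Finset.mem_range] at hi
    rw [length_str]
    rcases Nat.eq_zero_or_pos i with h0 | h0
    · subst h0; simp
    · have : Nat.log 2 (i + 1) < n := Nat.log_lt_of_lt_pow (by omega) (by omega)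
      omega) hA hcert
  have h2 := indep_cond half a (fun z => ¬ Φ z)
  have h3 : {A : Oracle | pre N₀ A = a ∧ ¬ Φ (fun i => A (str (N₀ + i.1)))} =
      {A : Oracle | pre N₀ A = a} ∩ {A | ¬ (A ∈ Acc ↔ A ∉ EWit n)} := by
    ext A
    simp only [Set.mem_ofPred_eq, Set.mem_inter_iff]
    exact and_congr_right fun h => not_congr (hΦ A h)
  rw [h3] at h2
  have h4 : EI (fun i : Fin M => ber (half (str (N₀ + i.1)))) (fun z => if ¬ Φ z then (1 : ℝ) else 0)
      = 1 - Ex unif (fun z => if Φ z then (1 : ℝ) else 0) := by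
    have h5 : (fun i : Fin M => ber (half (str (N₀ + i.1)))) = fun _ => unif := by
      funext i b
      exact ber_half _ b
    rw [h5]
    have h6 : (fun z : Fin M → Bool => if ¬ Φ z then (1 : ℝ) else 0) =
        fun z => 1 - (if Φ z then (1 : ℝ) else 0) := by
      funext z
      by_cases h : Φ z
      · simp [h]
      · simp [h]
    rw [h6]
    have h7 : (EI (fun _ : Fin M => unif) fun z => 1 - (if Φ z then (1 : ℝ) else 0)) =
        Ex unif (fun z => 1 - (if Φ z then (1 : ℝ) else 0)) := rfl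
    rw [h7]
    have h8 : Ex unif (fun z : Fin M → Bool => (1 - (if Φ z then (1 : ℝ) else 0)) +
        (if Φ z then (1 : ℝ) else 0)) = Ex unif (fun z => 1 - (if Φ z then (1 : ℝ) else 0)) +
        Ex unif (fun z => if Φ z then (1 : ℝ) else 0) := Ex_add _ _ _
    have h9 : Ex unif (fun z : Fin M → Bool => (1 - (if Φ z then (1 : ℝ) else 0)) +
        (if Φ z then (1 : ℝ) else 0)) = 1 := by
      have : (fun z : Fin M → Bool => (1 - (if Φ z then (1 : ℝ) else 0)) +
        (if Φ z then (1 : ℝ) else 0)) = fun _ => 1 := by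
        funext z
        ring
      rw [this]
      exact Ex_const unif_sum _
    linarith
  replace h2 : indep half ({A : Oracle | pre N₀ A = a} ∩ {A | ¬ (A ∈ Acc ↔ A ∉ EWit n)}) ≤
      ENNReal.ofReal (1 - Ex unif (fun z : Fin M → Bool => if Φ z then (1 : ℝ) else 0)) *
        indep half {A | pre N₀ A = a} := by
    rw [← h4]
    convert h2
  have hx1 : Ex unif (fun z : Fin M → Bool => if Φ z then (1 : ℝ) else 0) ≤ 1 := by
    have h9 : Ex unif (fun z : Fin M → Bool => if Φ z then (1 : ℝ) else 0) ≤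
        Ex unif (fun _ : Fin M → Bool => (1 : ℝ)) :=
      Ex_mono unif_nonneg fun z => by split_ifs <;> norm_num
    exact h9.trans (le_of_eq (Ex_const unif_sum _))
  have h5 := ENNReal.toReal_mono (ENNReal.mul_ne_top ENNReal.ofReal_ne_top
    (measure_ne_top _ _)) h2
  rw [ENNReal.toReal_mul, ENNReal.toReal_ofReal (by linarith)] at h5
  have h6 : (indep half).real ({A : Oracle | pre N₀ A = a} ∩
      {A | ¬ (A ∈ Acc ↔ A ∉ EWit n)}) ≤ (1 - Ex unif (fun z => if Φ z then (1 : ℝ) else 0)) *
        (indep half).real {A : Oracle | pre N₀ A = a} := h5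
  have hpos : 0 < (indep half).real {A : Oracle | pre N₀ A = a} := by
    have h7 : {A : Oracle | pre N₀ A = a} = {A | Extends A (List.ofFn a)} := by
      ext A
      exact BC.ext_ofFn.symm
    rw [h7]
    unfold Measure.real
    rw [indep_cyl, ENNReal.toReal_prod]
    refine Finset.prod_pos fun i _ => ?_
    rw [ber_half, ENNReal.toReal_ofReal (by norm_num)]
    norm_num
  by_contra hcon
  push Not at hcon
  have h8 : (1 - Ex unif (fun z => if Φ z then (1 : ℝ) else 0)) *
        (indep half).real {A : Oracle | pre N₀ A = a} <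
        1 / 768 * (indep half).real {A : Oracle | pre N₀ A = a} :=
    mul_lt_mul_of_pos_right (by linarith) hpos
  linarith

end Pool.Agent.TH680.EB
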