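import Pool.Agent.TH680.EB.Step

/-! Nondeterministic exponential time against an adversary. -/

set_option autoImplicit false

namespace Pool.Agent.TH680.EB

open Pool.Agent.NPC Pool.Agent.H620R2.Gauge Pool.Agent.H591R3.PHG MeasureTheory ProbabilityTheory
  Finset Pool.Agent.W900.IE Pool.Agent.W900.PS Pool.Agent.H622R2 Pool.Agent.W900
  Pool.Agent.H622R2.Exp H568R2 Pool.Agent.H676
open Pool.Agent.W900.BC (Dep split_pre Biased Small poly_le_pow)
open Pool.Agent.TH680.EL (sat sat_ne length_xb)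

/-- the algorithm accepts, with a certificate of length at most `B` -/
def EAcc (M : Alg) (B : ℕ) (y : List Bool) : Set Oracle :=
  {A | ∃ w : List Bool, w.length ≤ B ∧ M.out A (pairBits w y) = some [true]}

theorem eacc_cert (M : Alg) (B : ℕ) (y : List Bool) :
    CertO (M.p.eval (2 * B + 1 + y.length)) (EAcc M B y) := by
  rintro A ⟨w, hw, h1⟩
  obtain ⟨qb, hqb⟩ := Alg.out_local M
  obtain ⟨S, hS, _, hSA⟩ := hqb A (pairBits w y)
  refine ⟨S, hS.trans (eval_mono _ ?_), fun A' h => ⟨w, hw, ?_⟩⟩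
  · rw [length_pairBits]
    omega
  · rw [hSA A' h, h1]

theorem pre_eq {N ℓ : ℕ} {A B : Oracle} (h : pre N A = pre N B) (hN : 2 ^ (ℓ + 1) ≤ N)
    {z : List Bool} (hz : z.length ≤ ℓ) : A z = B z := by
  have h1 : idx z < N := by
    have h2 := idx_lt z
    have h3 : 2 ^ (z.length + 1) ≤ 2 ^ (ℓ + 1) := Nat.pow_le_pow_right (by norm_num) (by omega)
    omega
  have h4 := congrFun h ⟨idx z, h1⟩
  unfold pre at h4
  dsimp only at h4
  rw [str_idx] at h4
  exact h4

theorem eacc_dep (M : Alg) (B : ℕ) (y : List Bool) {N : ℕ}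
    (hN : 2 ^ ((qb M).eval (2 * B + 1 + y.length) + 1) ≤ N) : Dep N (EAcc M B y) := by
  rintro A A' hAA ⟨w, hw, h1⟩
  obtain ⟨S, _, hS, hSA⟩ := (Alg.out_local M).choose_spec A (pairBits w y)
  refine ⟨w, hw, ?_⟩
  rw [hSA A' fun z hz => ?_, h1]
  refine (pre_eq hAA hN ((hS z hz).trans (eval_mono _ ?_))).symm
  rw [length_pairBits]
  omega

theorem ewit_dep (n : ℕ) {N : ℕ} (hN : 2 ^ (2 * n + 1 + 1) ≤ N) : Dep N (EWit n) := by
  rintro A A' hAA ⟨w, hw, h1⟩
  refine ⟨w, hw, fun z hz => ?_⟩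
  rw [← h1 z hz]
  exact (pre_eq hAA hN (grp_len n hw hz).le).symm

/-- the polynomial bound for the lengths of the instances -/
noncomputable def PY : Polynomial ℕ :=
  Polynomial.C 32 * (Polynomial.C 4 * Polynomial.X + Polynomial.C 2) ^ 12

theorem eval_PY (n : ℕ) : PY.eval n = 32 * (4 * n + 2) ^ 12 := by
  simp [PY]

theorem two_pow_yn (n : ℕ) : 2 ^ (yn n).length ≤ PY.eval n := by
  set s := (2 * n + 1).size with hs
  have h1 : ∀ m, m ≤ 2 * n + 1 → sz m ≤ 4 * s + 1 := by
    intro m hm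
    have h2 := sz_nat_le m
    have h3 : m.size ≤ s := Nat.size_le_size hm
    omega
  have h2 : (yn n).length ≤ 12 * s + 5 := by
    unfold yn
    rw [length_xb]
    have a1 := h1 n (by omega)
    have a2 := h1 (2 * n) (by omega)
    have a3 := h1 (n + 1) (by omega)
    omega
  have h3 : 2 ^ s ≤ 4 * n + 2 := by
    have hs0 : 0 < s := Nat.size_pos.2 (by omega)
    have h4 : 2 ^ (s - 1) ≤ 2 * n + 1 := Nat.lt_size.1 (by omega)
    have h5 : 2 ^ s = 2 * 2 ^ (s - 1) := by
      rw [← pow_succ']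
      congr 1
      omega
    omega
  rw [eval_PY]
  calc 2 ^ (yn n).length ≤ 2 ^ (12 * s + 5) := Nat.pow_le_pow_right (by norm_num) h2
    _ = 32 * (2 ^ s) ^ 12 := by rw [pow_add, ← pow_mul, mul_comm 12 s]; ring
    _ ≤ 32 * (4 * n + 2) ^ 12 := Nat.mul_le_mul_left _ (Nat.pow_le_pow_left h3 _)

/-- the bound for the certificates -/
def Bn (c₀ n : ℕ) : ℕ := 2 ^ (c₀ * ((yn n).length + 1))

/-- the polynomial bound for the certificates and the instance -/
noncomputable def PA (c₀ : ℕ) : Polynomial ℕ :=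
  Polynomial.C 2 * (Polynomial.C 2 * PY) ^ c₀ + 1 + PY

theorem eval_PA (c₀ n : ℕ) : (PA c₀).eval n = 2 * (2 * PY.eval n) ^ c₀ + 1 + PY.eval n := by
  simp [PA]

theorem arg_le (c₀ n : ℕ) : 2 * Bn c₀ n + 1 + (yn n).length ≤ (PA c₀).eval n := by
  rw [eval_PA]
  have h1 := two_pow_yn n
  have h2 : (yn n).length < 2 ^ (yn n).length := Nat.lt_two_pow_self
  have h3 : Bn c₀ n ≤ (2 * PY.eval n) ^ c₀ := by
    unfold Bn
    rw [mul_comm, pow_mul]
    apply Nat.pow_le_pow_left
    rw [pow_succ]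
    omega
  omega

/-- the oracles relative to which the algorithm decides the complement -/
def EasyE (M : Alg) (c₀ : ℕ) : Set Oracle :=
  {A | ∀ n, (A ∈ EAcc M (Bn c₀ n) (yn n) ↔ A ∉ EWit n)}

theorem easyE_null (M : Alg) (c₀ : ℕ) {ε : ℕ → ℝ} (hs : Small ε) (μ : Measure Oracle)
    [IsProbabilityMeasure μ] (hb : Biased ε μ) : μ (EasyE M c₀) = 0 := by
  classical
  set T : Polynomial ℕ := M.p.comp (PA c₀) + 1 with hT
  have hTe : ∀ n, T.eval n = M.p.eval ((PA c₀).eval n) + 1 := by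
    intro n; simp [hT, Polynomial.eval_comp]
  set Q' : Polynomial ℕ := (qb M).comp (PA c₀) + Polynomial.C 2 * Polynomial.X + 3 with hQ'
  have hQe : ∀ n, Q'.eval n = (qb M).eval ((PA c₀).eval n) + 2 * n + 3 := by
    intro n; simp [hQ', Polynomial.eval_comp]
  set U : Polynomial ℕ := Polynomial.C 36864 * (T + Polynomial.X + 1) + Q' with hU
  have hUe : ∀ n, U.eval n = 36864 * (T.eval n + n + 1) + Q'.eval n := by
    intro n; simp [hU]
  obtain ⟨c, n₀, hc⟩ := poly_le_pow U
  obtain ⟨n₁, hn₁⟩ := X9.exists_n0 (Polynomial.C 2 * T)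
  have key : ∀ t : ℕ, ∃ (N : ℕ) (S : Set Oracle), Dep N S ∧ EasyE M c₀ ⊆ S ∧
      μ S ≤ ENNReal.ofReal (1 - 1 / 1536) ^ t := by
    intro t
    induction t with
    | zero => exact ⟨0, Set.univ, fun _ _ _ _ => Set.mem_univ _, Set.subset_univ _, by simp⟩
    | succ t ih =>
      obtain ⟨N₁, S, hdep, hsub, hμ⟩ := ih
      obtain ⟨n, hwin, hn⟩ := ((hs c).and_eventually
        (Filter.eventually_ge_atTop (max (max n₀ (n₁ + 1)) N₁))).exists
      have hn0 : n₀ ≤ n := le_trans (le_trans (le_max_left _ _) (le_max_left _ _)) hn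
      have hn1 : n₁ + 1 ≤ n := le_trans (le_trans (le_max_right _ _) (le_max_left _ _)) hn
      have hnN : N₁ ≤ n := le_trans (le_max_right _ _) hn
      have h2T := hn₁ n (by omega)
      have e2T : (Polynomial.C 2 * T).eval n = 2 * T.eval n := by simp
      rw [e2T] at h2T
      have hUn := hc n hn0
      rw [hUe] at hUn
      set N₀ : ℕ := 2 ^ n - 1 with hN₀
      have h2n : n < 2 ^ n := Nat.lt_two_pow_self
      set N : ℕ := 2 ^ (Q'.eval n) with hN
      have hQn := hQe n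
      have harg := arg_le c₀ n
      have hq1 : (qb M).eval (2 * Bn c₀ n + 1 + (yn n).length) ≤ (qb M).eval ((PA c₀).eval n) :=
        eval_mono _ harg
      have ht1 : M.p.eval (2 * Bn c₀ n + 1 + (yn n).length) ≤ T.eval n := by
        rw [hTe]
        exact (eval_mono _ harg).trans (Nat.le_succ _)
      have hN1 : 2 ^ ((qb M).eval (2 * Bn c₀ n + 1 + (yn n).length) + 1) ≤ N :=
        Nat.pow_le_pow_right (by norm_num) (by omega)
      have hN2 : 2 ^ (2 * n + 1 + 1) ≤ N := Nat.pow_le_pow_right (by norm_num) (by omega)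
      have hN3 : 2 ^ n ≤ N := Nat.pow_le_pow_right (by norm_num) (by omega)
      have hT1 : 1 ≤ T.eval n := by rw [hTe]; omega
      have hcert : CertO (T.eval n) (EAcc M (Bn c₀ n) (yn n)) := by
        intro A hA
        obtain ⟨S, hS, h⟩ := eacc_cert M (Bn c₀ n) (yn n) A hA
        exact ⟨S, hS.trans ht1, h⟩
      have hd := eacc_dep M (Bn c₀ n) (yn n) hN1
      have hd' := ewit_dep n hN2
      set δ : ℝ := 1 / (n : ℝ) ^ c with hδ
      have hnpos : (0 : ℝ) < n := by
        have : 0 < n := by omega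
        exact_mod_cast this
      have hδ0 : 0 ≤ δ := by positivity
      have hδb : 24 * ((T.eval n : ℕ) + ((n : ℝ) + 1)) * δ ≤ 1 / 1536 := by
        have h3 : ((36864 * (T.eval n + n + 1) + Q'.eval n : ℕ) : ℝ) ≤ ((n ^ c : ℕ) : ℝ) := by
          exact_mod_cast hUn
        push_cast at h3
        have h4 : (0 : ℝ) ≤ (Q'.eval n : ℕ) := Nat.cast_nonneg _
        rw [hδ, mul_one_div, div_le_div_iff₀ (by positivity) (by norm_num)]
        nlinarith
      have hbias : ∀ (σ : List Bool) (b : Bool), N₀ ≤ σ.length → σ.length < N →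
          μ {A | Extends A (σ ++ [b])} ≤ ENNReal.ofReal (1 / 2 + δ) * μ {A | Extends A σ} := by
        intro σ b h3 h4
        refine (hb σ b).trans (mul_le_mul_left ?_ _)
        apply ENNReal.ofReal_le_ofReal
        have h5 : (str σ.length).length = Nat.log 2 (σ.length + 1) := length_str _
        have h6 : n ≤ (str σ.length).length := by
          rw [h5]
          apply Nat.le_log_of_pow_le (by norm_num)
          omega
        have h7 : (str σ.length).length ≤ n ^ c := by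
          have h8 : (str σ.length).length ≤ Q'.eval n := by
            rw [h5]
            calc Nat.log 2 (σ.length + 1) ≤ Nat.log 2 (2 ^ (Q'.eval n)) :=
                  Nat.log_mono_right (by omega)
              _ = Q'.eval n := Nat.log_pow (by norm_num) _
          omega
        have h8 := hwin _ h6 h7
        linarith
      refine ⟨N, S ∩ {A | A ∈ EAcc M (Bn c₀ n) (yn n) ↔ A ∉ EWit n}, ?_, ?_, ?_⟩
      · rintro A B hAB ⟨h3, h4⟩
        refine ⟨(hdep.mono (by omega)) A B hAB h3, ?_⟩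
        have e1 : A ∈ EAcc M (Bn c₀ n) (yn n) ↔ B ∈ EAcc M (Bn c₀ n) (yn n) :=
          ⟨hd A B hAB, hd B A hAB.symm⟩
        have e2 : A ∈ EWit n ↔ B ∈ EWit n := ⟨hd' A B hAB, hd' B A hAB.symm⟩
        show B ∈ EAcc M (Bn c₀ n) (yn n) ↔ B ∉ EWit n
        rw [← e1, ← e2]
        exact h4
      · intro A hA
        exact ⟨hsub hA, hA n⟩
      · have h3 := split_pre μ (N := N₀) S {A | A ∈ EAcc M (Bn c₀ n) (yn n) ↔ A ∉ EWit n}
          (ENNReal.ofReal (1 - 1 / 1536)) (hdep.mono (by omega)) (fun a =>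
            step_bias (n := n) (N₀ := N₀) (N := N) (by omega) (by omega) hT1 h2T hcert hd hd' μ
              hδ0 hδb hbias a)
        refine h3.trans ?_
        rw [pow_succ, mul_comm (ENNReal.ofReal (1 - 1 / 1536) ^ t)]
        exact mul_le_mul_right hμ _
  have hle : ∀ t : ℕ, μ (EasyE M c₀) ≤ ENNReal.ofReal (1 - 1 / 1536) ^ t := by
    intro t
    obtain ⟨N, S, _, h1, h2⟩ := key t
    exact (measure_mono h1).trans h2
  have hlim : Filter.Tendsto (fun t : ℕ => ENNReal.ofReal (1 - 1 / 1536) ^ t) Filter.atTop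
      (nhds 0) := by
    apply ENNReal.tendsto_pow_atTop_nhds_zero_of_lt_one
    rw [ENNReal.ofReal_lt_one]
    norm_num
  exact le_antisymm (ge_of_tendsto' hlim hle) zero_le

/-- **The positive part.** -/
theorem pos_part {ε : ℕ → ℝ} (hs : Small ε) (μ : Measure Oracle)
    [IsProbabilityMeasure μ] (hb : Biased ε μ) : ∀ᵐ A ∂μ, ¬ InNTime Lin A (sat false A)ᶜ := by
  have h : ∀ᵐ A ∂μ, ∀ (M : Alg) (c₀ : ℕ), A ∉ EasyE M c₀ := by
    rw [ae_all_iff]
    intro M
    rw [ae_all_iff]
    intro c₀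
    rw [ae_iff]
    simpa using easyE_null M c₀ hs μ hb
  filter_upwards [h] with A hA
  rintro ⟨V, ⟨M, hM⟩, p, ⟨c₀, rfl⟩, hL⟩
  apply hA M c₀
  intro n
  have h1 := hL (yn n)
  have e1 : (Polynomial.C c₀ * (Polynomial.X + 1)).eval (yn n).length =
      c₀ * ((yn n).length + 1) := by simp
  rw [Set.mem_compl_iff, yn_mem, e1] at h1
  rw [h1]
  unfold EAcc Bn
  rw [Set.mem_ofPred_eq]
  refine exists_congr fun w => and_congr_right fun _ => ?_
  rw [hM, Option.some.injEq]

end Pool.Agent.TH680.EB
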