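import Pool.Agent.H622R2.Exp.Base
import Pool.Agent.H622R2.Exp.G
import Pool.Agent.H622R2.Exp.A4
import Pool.Agent.H622R2.Exp.A5
import Pool.Agent.H620R2.Gauge2.Trans
import Pool.Agent.TH680.EL.Sat
import Pool.Agent.H622R2.Exp.A1
import Pool.Agent.H591R3.PHG.LangSig

/-! Padding: if `P = PSPACE` relative to an oracle, then exponential time is exponential space. -/

set_option autoImplicit false

namespace Pool.Agent.TH680.EB

open Pool.Agent.NPC Pool.Agent.H620R2.Gauge Pool.Agent.H622R2 Pool.Agent.H622R2.Exp
open Pool.Agent.W900.IE (poly_take poly_u1 poly_u2)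

/-! ### From padded `P` to exponential time -/

/-- the length of the padding -/
def RR (q : Polynomial ℕ) (x : List Bool) : ℕ := 2 ^ q.eval x.length

theorem poly_RR (q : Polynomial ℕ) : Poly (RR q) :=
  A4.poly_two_pow (UPoly.eval (UPoly.length Poly.id) q)

/-- the padded input, made from the answers -/
def pin (q : Polynomial ℕ) (x a : List Bool) : List Bool :=
  pairBits x (List.replicate (min (RR q x) a.length) true)

theorem poly_pin (q : Polynomial ℕ) : Poly (fun z : List Bool => pin q (unpair z).1 (unpair z).2) := by
  have h1 : UPoly (fun z : List Bool => min (RR q (unpair z).1) (unpair z).2.length) :=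
    EL.poly_min_len ((poly_RR q).comp poly_u1) poly_u2
  have h2 : Poly (fun z : List Bool =>
      List.replicate (min (RR q (unpair z).1) (unpair z).2.length) true) :=
    (NPC.Poly.map (F := fun _ _ => true) h1 (NPC.Poly.const true)).congr fun a => by simp
  exact poly_pairBits poly_u1 h2

theorem poly_drop {α : Type} [TEnc α] {l : α → List Bool} {n : α → ℕ} (hl : Poly l)
    (hn : UPoly n) : Poly (fun a => (l a).drop (n a)) := by
  have h1 : UPoly (fun a => (l a).length - n a) := SE.uPoly_sub (UPoly.length hl) hn.toPoly
  refine (Poly.reverse (poly_take (Poly.reverse hl) h1)).congr fun a => ?_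
  rw [List.take_reverse, List.reverse_reverse]
  rcases Nat.le_total (n a) (l a).length with h | h
  · congr 1
    omega
  · rw [List.drop_of_length_le h, List.drop_of_length_le (by omega)]

/-- the algorithm -/
noncomputable def padAlg (M : Alg) (q : Polynomial ℕ) : Alg where
  D := fun z => if (unpair z).2.length < RR q (unpair z).1 then [false] else
    M.D (pairBits (pin q (unpair z).1 (unpair z).2)
      ((unpair z).2.drop (min (RR q (unpair z).1) (unpair z).2.length)))
  poly := by
    apply polyTime_of_poly_list
    have h1 : UPoly (fun z : List Bool => min (RR q (unpair z).1) (unpair z).2.length) :=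
      EL.poly_min_len ((poly_RR q).comp poly_u1) poly_u2
    exact Poly.ite (Poly.decide_lt (Poly.length poly_u2) ((poly_RR q).comp poly_u1))
      (NPC.Poly.const _) ((poly_of_polyTime M.poly).comp (poly_pairBits (poly_pin q)
        (poly_drop poly_u2 h1)))
  p := M.p

theorem padAlg_two (M : Alg) (q : Polynomial ℕ) (A : Oracle) (x : List Bool) :
    ∀ (t : ℕ) (a : List Bool), RR q x ≤ a.length →
      (padAlg M q).run A x t a = M.run A (padq q x) t (a.drop (RR q x)) := by
  intro t
  induction t with
  | zero => intro a _; rfl
  | succ t ih =>
    intro a ha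
    rw [A2.run_succ, A2.run_succ]
    have h1 : (padAlg M q).D (pairBits x a) = M.D (pairBits (padq q x) (a.drop (RR q x))) := by
      change (if (unpair (pairBits x a)).2.length < RR q (unpair (pairBits x a)).1 then [false] else
        M.D (pairBits (pin q (unpair (pairBits x a)).1 (unpair (pairBits x a)).2)
          ((unpair (pairBits x a)).2.drop (min (RR q (unpair (pairBits x a)).1)
            (unpair (pairBits x a)).2.length)))) = _
      rw [unpair_pairBits]
      dsimp only
      rw [if_neg (not_lt.2 ha), min_eq_left ha]
      unfold pin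
      rw [min_eq_left ha]
      rfl
    rw [h1]
    split_ifs with h2
    · rw [ih _ (by rw [List.length_append]; omega), List.drop_append_of_le_length ha]
    · rfl

theorem padAlg_one (M : Alg) (q : Polynomial ℕ) (A : Oracle) (x : List Bool) (t : ℕ) (z : List Bool)
    (h : ∀ a : List Bool, a.length = RR q x → (padAlg M q).run A x t a = some z) :
    ∀ (k : ℕ) (a : List Bool), a.length + k = RR q x →
      (padAlg M q).run A x (t + k) a = some z := by
  intro k
  induction k with
  | zero => intro a ha; exact h a (by omega)
  | succ k ih =>
    intro a ha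
    rw [show t + (k + 1) = t + k + 1 by omega, A2.run_succ]
    have h1 : (padAlg M q).D (pairBits x a) = [false] := by
      change (if (unpair (pairBits x a)).2.length < RR q (unpair (pairBits x a)).1 then [false] else
        M.D (pairBits (pin q (unpair (pairBits x a)).1 (unpair (pairBits x a)).2)
          ((unpair (pairBits x a)).2.drop (min (RR q (unpair (pairBits x a)).1)
            (unpair (pairBits x a)).2.length)))) = _
      rw [unpair_pairBits]
      dsimp only
      rw [if_pos (by omega)]
    rw [h1]
    simp only [List.head?_cons, if_true]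
    exact ih _ (by rw [List.length_append, List.length_singleton]; omega)

theorem inTime_pad {E : Set (Polynomial ℕ)} (hE : Good E) {A : Oracle} {L : Set (List Bool)}
    (h : IsP A L) {q : Polynomial ℕ} (hq : q ∈ E) : InTime E A {x | padq q x ∈ L} := by
  obtain ⟨V, ⟨M, hM⟩, hL⟩ := h
  obtain ⟨r, hr, hb⟩ := hE.comp q hq (Polynomial.X +
    M.p.comp (Polynomial.C 2 * Polynomial.X + Polynomial.C 1))
  refine ⟨padAlg M q, r, hr, fun x => ⟨V (padq q x), ?_, hL _⟩⟩
  have h1 := hb x.length
  simp only [Polynomial.eval_add, Polynomial.eval_mul, Polynomial.eval_comp,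
    Polynomial.eval_C, Polynomial.eval_X] at h1
  have h2 : M.p.eval (padq q x).length ≤ M.p.eval (2 * (x.length + 2 ^ q.eval x.length) + 1) := by
    apply eval_mono
    unfold padq
    rw [length_pairBits, List.length_replicate]
    have h0 := Nat.zero_le (2 ^ q.eval x.length)
    linarith
  have h3 := padAlg_one M q A x (M.p.eval (padq q x).length) (V (padq q x)) (fun a ha => by
    rw [padAlg_two M q A x _ a (by omega), List.drop_of_length_le (by omega)]
    exact hM (padq q x)) (RR q x) [] (by simp)
  refine Alg.run_mono _ A x _ _ _ [] ?_ h3
  unfold RR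
  have h4 := Nat.zero_le x.length
  linarith

/-! ### From exponential space to padded `PSPACE` -/

/-- the steps of an algorithm -/
def st (M : SAlg) (A : Oracle) (x s : List Bool) : List Bool :=
  if (M.act (pairBits x s)).head? = some false then
    M.next (pairBits x (A (M.act (pairBits x s)).tail :: s)) else s

theorem reach_iff' (M : SAlg) (A : Oracle) (x s : List Bool) :
    M.Reach A x s ↔ ∃ k : ℕ, s = (st M A x)^[k] [] := by
  constructor
  · intro h
    induction h with
    | start => exact ⟨0, rfl⟩
    | @step s q _ hq ih =>
      obtain ⟨k, hk⟩ := ih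
      refine ⟨k + 1, ?_⟩
      rw [Function.iterate_succ_apply', ← hk]
      unfold st
      rw [hq]
      rfl
  · rintro ⟨k, rfl⟩
    induction k with
    | zero => exact SAlg.Reach.start
    | succ k ih =>
      rw [Function.iterate_succ_apply']
      generalize (st M A x)^[k] [] = s at ih
      unfold st
      split_ifs with h
      · rcases hq : M.act (pairBits x s) with _ | ⟨b, q⟩
        · rw [hq] at h; simp at h
        · rw [hq] at h
          simp only [List.head?_cons, Option.some.injEq] at h
          subst h
          exact SAlg.Reach.step ih hq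
      · exact ih

/-- the stopping memory is unique -/
theorem halt_unique (M : SAlg) (A : Oracle) (x : List Bool) {s s' z z' : List Bool}
    (h : M.Reach A x s) (hz : M.act (pairBits x s) = true :: z)
    (h' : M.Reach A x s') (hz' : M.act (pairBits x s') = true :: z') : s = s' := by
  have hfix : ∀ {s z : List Bool}, M.act (pairBits x s) = true :: z → st M A x s = s := by
    intro s z h
    unfold st
    rw [h]
    simp
  obtain ⟨k, rfl⟩ := (reach_iff' M A x s).1 h
  obtain ⟨k', rfl⟩ := (reach_iff' M A x s').1 h'
  rcases Nat.le_total k k' with hk | hk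
  · obtain ⟨j, rfl⟩ := Nat.exists_eq_add_of_le hk
    rw [add_comm k j, Function.iterate_add_apply, Function.iterate_fixed (hfix hz)]
  · obtain ⟨j, rfl⟩ := Nat.exists_eq_add_of_le hk
    rw [add_comm k' j, Function.iterate_add_apply, Function.iterate_fixed (hfix hz')]

/-- the algorithm with a bound for the memory, given by the padding -/
noncomputable def limAlg (M : SAlg) : SAlg where
  act := fun z => if (unpair (unpair z).1).2.length < (unpair z).2.length then [true] else
    M.act (pairBits (unpair (unpair z).1).1 (unpair z).2)
  act_poly := polyTime_of_poly_list (Poly.ite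
    (Poly.decide_lt (Poly.length (poly_u2.comp poly_u1)) (Poly.length poly_u2))
    (NPC.Poly.const _) ((poly_of_polyTime M.act_poly).comp
      (poly_pairBits (poly_u1.comp poly_u1) poly_u2)))
  next := fun z => M.next (pairBits (unpair (unpair z).1).1 (unpair z).2)
  next_poly := polyTime_of_poly_list ((poly_of_polyTime M.next_poly).comp
      (poly_pairBits (poly_u1.comp poly_u1) poly_u2))

theorem lim_act (M : SAlg) (y s : List Bool) : (limAlg M).act (pairBits y s) =
    if (unpair y).2.length < s.length then [true] else M.act (pairBits (unpair y).1 s) := by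
  change (if (unpair (unpair (pairBits y s)).1).2.length <
    (unpair (pairBits y s)).2.length then [true] else _) = _
  rw [unpair_pairBits]

theorem lim_next (M : SAlg) (y s : List Bool) (b : Bool) :
    (limAlg M).next (pairBits y (b :: s)) = M.next (pairBits (unpair y).1 (b :: s)) := by
  change M.next (pairBits (unpair (unpair (pairBits y (b :: s))).1).1
    (unpair (pairBits y (b :: s))).2) = _
  rw [unpair_pairBits]

/-- short memories are the same -/
theorem lim_reach (M : SAlg) (A : Oracle) (y : List Bool) {s : List Bool}
    (h : M.Reach A (unpair y).1 s) : (limAlg M).Reach A y s ∨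
      ∃ s', (limAlg M).Reach A y s' ∧ (unpair y).2.length < s'.length := by
  induction h with
  | start => exact Or.inl SAlg.Reach.start
  | @step s q _ hq ih =>
    rcases ih with ih | ih
    · by_cases hs : (unpair y).2.length < s.length
      · exact Or.inr ⟨s, ih, hs⟩
      · left
        have h1 := SAlg.Reach.step ih (q := q) (by rw [lim_act, if_neg hs]; exact hq)
        rwa [lim_next] at h1
    · exact Or.inr ih

theorem reach_lim (M : SAlg) (A : Oracle) (y : List Bool) {s : List Bool}
    (h : (limAlg M).Reach A y s) : M.Reach A (unpair y).1 s := by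
  induction h with
  | start => exact SAlg.Reach.start
  | @step s q _ hq ih =>
    rw [lim_act] at hq
    split_ifs at hq with h1
    · simp at hq
    · rw [lim_next]
      exact SAlg.Reach.step ih hq

theorem exists_pspace {A : Oracle} {L : Set (List Bool)} {E : Set (Polynomial ℕ)}
    (h : InSpace E A L) : ∃ (L' : Set (List Bool)) (q : Polynomial ℕ), IsPSPACE A L' ∧ q ∈ E ∧
      L = {x | padq q x ∈ L'} := by
  obtain ⟨M, q, hq, hM⟩ := h
  -- the stopping memory of the bounded algorithm
  have hhalt : ∀ y : List Bool, ∃ s z, (limAlg M).Reach A y s ∧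
      (limAlg M).act (pairBits y s) = true :: z := by
    intro y
    obtain ⟨_, s, z, h1, h2, _⟩ := hM (unpair y).1
    rcases lim_reach M A y h1 with h3 | ⟨s', h3, h4⟩
    · by_cases hs : (unpair y).2.length < s.length
      · exact ⟨s, [], h3, by rw [lim_act, if_pos hs]⟩
      · exact ⟨s, z, h3, by rw [lim_act, if_neg hs]; exact h2⟩
    · exact ⟨s', [], h3, by rw [lim_act, if_pos h4]⟩
  set L' : Set (List Bool) := {y | ∃ s, (limAlg M).Reach A y s ∧
    (limAlg M).act (pairBits y s) = [true, true]} with hL'
  obtain ⟨b, hb⟩ := A1.polyTime_length M.next_poly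
  refine ⟨L', q, ⟨limAlg M, b.comp (Polynomial.C 2 * Polynomial.X + Polynomial.C 1),
    fun y => ⟨fun s hs => ?_, ?_⟩⟩, hq, ?_⟩
  · cases hs with
    | start => simp
    | @step s q _ hq =>
      rw [lim_act] at hq
      split_ifs at hq with h1
      · simp at hq
      · rw [lim_next]
        refine (hb _ _).trans ?_
        rw [Polynomial.eval_comp]
        apply eval_mono
        have h2 := H591R3.PHG.LangSig.length_unpair y
        simp only [Polynomial.eval_add, Polynomial.eval_mul, Polynomial.eval_C,
          Polynomial.eval_X, List.length_cons]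
        omega
  · obtain ⟨s, z, h1, h2⟩ := hhalt y
    refine ⟨s, z, h1, h2, ?_⟩
    constructor
    · rintro ⟨s', h3, h4⟩
      have h5 := halt_unique (limAlg M) A y h1 h2 h3 h4
      rw [← h5, h2] at h4
      simpa using h4
    · rintro rfl
      exact ⟨s, h1, h2⟩
  · ext x
    obtain ⟨hlen, s, z, h1, h2, h3⟩ := hM x
    have hx : (unpair (padq q x)).1 = x := by unfold padq; rw [unpair_pairBits]
    have ht : (unpair (padq q x)).2.length = 2 ^ q.eval x.length := by
      unfold padq
      rw [unpair_pairBits, List.length_replicate]
    have h4 : (limAlg M).Reach A (padq q x) s := by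
      rcases lim_reach M A (padq q x) (by rw [hx]; exact h1) with h5 | ⟨s', h5, h6⟩
      · exact h5
      · have h7 := reach_lim M A _ h5
        rw [hx] at h7
        have := hlen s' h7
        omega
    have h5 : (limAlg M).act (pairBits (padq q x) s) = true :: z := by
      have := hlen s h1
      rw [lim_act, if_neg (by omega), hx]
      exact h2
    rw [h3, Set.mem_ofPred_eq]
    constructor
    · rintro rfl
      exact ⟨s, h4, h5⟩
    · rintro ⟨s', h6, h7⟩
      have h8 := halt_unique (limAlg M) A _ h4 h5 h6 h7
      rw [← h8, h5] at h7
      simpa using h7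

/-- **Padding.** -/
theorem space_le_time {A : Oracle} {E : Set (Polynomial ℕ)} (hE : Good E)
    (h : ∀ L, IsPSPACE A L → IsP A L) (L : Set (List Bool)) (hL : InSpace E A L) :
    InTime E A L := by
  obtain ⟨L', q, h1, hq, rfl⟩ := exists_pspace hL
  exact inTime_pad hE (h L' h1) hq

end Pool.Agent.TH680.EB
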