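import Pool.Agent.TH680.EB.Fair

/-! One step against an adversary. -/

set_option autoImplicit false

namespace Pool.Agent.TH680.EB

open Pool.Agent.NPC Pool.Agent.H620R2.Gauge Pool.Agent.H591R3.PHG MeasureTheory ProbabilityTheory
  Finset Pool.Agent.W900.IE Pool.Agent.W900.PS Pool.Agent.H622R2 Pool.Agent.W900
  Pool.Agent.H622R2.Exp H568R2 Pool.Agent.H676
open Pool.Agent.W900.BC (app Dep game wt' wt'_add ext_append ext_ofFn dtr_zero_const ind_le_one)

/-- small certificates for the membership of oracles -/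
def CertO (t : ℕ) (S : Set Oracle) : Prop := ∀ A ∈ S, ∃ T : Finset (List Bool), T.card ≤ t ∧
  ∀ A', (∀ z ∈ T, A' z = A z) → A' ∈ S

open Classical in
theorem cert_of {t N₀ N : ℕ} {S : Set Oracle} (hS : CertO t S) (a : Fin N₀ → Bool) :
    Cert t true (fun z : Fin (N - N₀) → Bool => decide (orc N (app a z) ∈ S)) := by
  intro x hx
  rw [decide_eq_true_eq] at hx
  obtain ⟨T, hT, h⟩ := hS _ hx
  refine ⟨Finset.univ.filter (fun i : Fin (N - N₀) => str (N₀ + i.1) ∈ T), ?_, fun y hy => ?_⟩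
  · refine le_trans ?_ hT
    apply Finset.card_le_card_of_injOn (fun i : Fin (N - N₀) => str (N₀ + i.1))
    · intro i hi
      exact (Finset.mem_filter.1 hi).2
    · intro i _ j _ hij
      have h1 := str_injective hij
      exact Fin.ext (by omega)
  · rw [decide_eq_true_eq]
    refine h _ fun z hz => ?_
    unfold orc
    by_cases h1 : idx z < N
    · rw [dif_pos h1, dif_pos h1]
      unfold app
      by_cases h2 : idx z < N₀
      · rw [dif_pos h2, dif_pos h2]
      · rw [dif_neg h2, dif_neg h2]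
        apply hy
        rw [Finset.mem_filter]
        refine ⟨Finset.mem_univ _, ?_⟩
        have h3 : N₀ + (idx z - N₀) = idx z := by omega
        show str (N₀ + (idx z - N₀)) ∈ T
        rw [h3, str_idx]
        exact hz
    · rw [dif_neg h1, dif_neg h1]

open Classical in
/-- coins controlled by an adversary -/
theorem adv {I : Type} [Fintype I] [DecidableEq I] {f g : (I → Bool) → Bool} {t t' : ℕ}
    (ht : 1 ≤ t) (ht' : 1 ≤ t') (hf : Cert t true f) (hg : Cert t' true g) {q : ℝ} (h0 : 0 ≤ q)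
    (h1 : q ≤ 1 / 3) (R : Bool → Bool → Prop) :
    Ex (wq q) (fun ρ : Restr I => if ∃ x, R (f (ov ρ x)) (g (ov ρ x)) then (1 : ℝ) else 0) ≤
      Ex unif (fun a : I → Bool => if R (f a) (g a) then (1 : ℝ) else 0) +
        12 * t * q + 12 * t' * q := by
  have hpt : ∀ ρ : Restr I, (if ∃ x, R (f (ov ρ x)) (g (ov ρ x)) then (1 : ℝ) else 0) ≤
      (Ex unif (fun a : I → Bool => if R (f (ov ρ a)) (g (ov ρ a)) then (1 : ℝ) else 0) +
      (if ¬ DTr 0 (rs f ρ) then (1 : ℝ) else 0)) +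
      (if ¬ DTr 0 (rs g ρ) then (1 : ℝ) else 0) := by
    intro ρ
    have hu0 : 0 ≤ Ex unif (fun a : I → Bool =>
        if R (f (ov ρ a)) (g (ov ρ a)) then (1 : ℝ) else 0) :=
      Ex_nonneg unif_nonneg fun a => by split_ifs <;> norm_num
    have hle1 := ind_le_one (fun ρ : Restr I => ∃ x, R (f (ov ρ x)) (g (ov ρ x))) ρ
    have i1 : (0 : ℝ) ≤ (if ¬ DTr 0 (rs f ρ) then (1 : ℝ) else 0) := by split_ifs <;> norm_num
    have i2 : (0 : ℝ) ≤ (if ¬ DTr 0 (rs g ρ) then (1 : ℝ) else 0) := by split_ifs <;> norm_num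
    by_cases h2 : DTr 0 (rs f ρ)
    · by_cases h3 : DTr 0 (rs g ρ)
      · by_cases h4 : ∃ x, R (f (ov ρ x)) (g (ov ρ x))
        · obtain ⟨x, hx⟩ := h4
          have h5 : ∀ a : I → Bool, R (f (ov ρ a)) (g (ov ρ a)) := by
            intro a
            rw [dtr_zero_const h2 a x, dtr_zero_const h3 a x]
            exact hx
          have h6 : Ex unif (fun a : I → Bool =>
              if R (f (ov ρ a)) (g (ov ρ a)) then (1 : ℝ) else 0) = 1 := by
            have : (fun a : I → Bool =>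
                if R (f (ov ρ a)) (g (ov ρ a)) then (1 : ℝ) else 0) = fun _ => 1 := by
              funext a
              rw [if_pos (h5 a)]
            rw [this, Ex_const unif_sum]
          linarith
        · rw [if_neg h4]
          linarith
      · rw [if_pos h3] at i2 ⊢
        linarith
    · rw [if_pos h2] at i1 ⊢
      linarith
  refine (Ex_mono (wq_nonneg h0 (by linarith)) hpt).trans ?_
  rw [Ex_add, Ex_add, Ex_ov (fun a : I → Bool => if R (f a) (g a) then (1 : ℝ) else 0)]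
  have h2 := switch (k := 0) ht h0 h1 (b := true) hf
  have h3 := switch (k := 0) ht' h0 h1 (b := true) hg
  rw [zero_add, pow_one] at h2 h3
  exact add_le_add (add_le_add le_rfl h2) h3

theorem dep_orc {N : ℕ} {S : Set Oracle} (h : Dep N S) (A : Oracle) :
    orc N (pre N A) ∈ S ↔ A ∈ S := by
  have h1 : pre N (orc N (pre N A)) = pre N A := by
    funext i
    show orc N (pre N A) (str i) = A (str i)
    exact orc_pre (by rw [idx_str]; exact i.2)
  exact ⟨h _ _ h1, h _ _ h1.symm⟩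

theorem dep_fin {N : ℕ} {S : Set Oracle} (h : Dep N S) : ∃ F, DepO F S := by
  refine ⟨(Finset.range N).image str, fun A A' hA => h A A' ?_⟩
  funext i
  exact hA (str i) (Finset.mem_image.2 ⟨i, Finset.mem_range.2 i.2, rfl⟩)

theorem cert_wit (n : ℕ) : CertO (n + 1) (EWit n) := by
  rintro A ⟨w, hw, h⟩
  exact ⟨grp n w, (card_grp n w).le, fun A' h' => ⟨w, hw, fun z hz => (h' z hz).trans (h z hz)⟩⟩

open Classical in
/-- **One step.** -/
theorem step_bias {n N₀ N : ℕ} (hN₀ : N₀ + 1 ≤ 2 ^ n) (hNN : N₀ ≤ N) {Acc : Set Oracle} {t : ℕ}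
    (ht : 1 ≤ t) (h2t : 2 * t ≤ 2 ^ n) (hA : CertO t Acc) (hd : Dep N Acc) (hd' : Dep N (EWit n))
    (μ : Measure Oracle) [IsProbabilityMeasure μ] {δ : ℝ} (h0 : 0 ≤ δ)
    (hδ : 24 * (t + (n + 1)) * δ ≤ 1 / 1536)
    (hb : ∀ (σ : List Bool) (b : Bool), N₀ ≤ σ.length → σ.length < N →
      μ {A | Extends A (σ ++ [b])} ≤ ENNReal.ofReal (1 / 2 + δ) * μ {A | Extends A σ})
    (a : Fin N₀ → Bool) :
    μ {A | pre N₀ A = a ∧ (A ∈ Acc ↔ A ∉ EWit n)} ≤
      ENNReal.ofReal (1 - 1 / 1536) * μ {A | pre N₀ A = a} := by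
  have htR : (1 : ℝ) ≤ t := by exact_mod_cast ht
  have hnR : (0 : ℝ) ≤ n := Nat.cast_nonneg n
  have hδ' : 2 * δ ≤ 1 / 3 := by nlinarith
  set f : (Fin (N - N₀) → Bool) → Bool := fun z => decide (orc N (app a z) ∈ Acc) with hf
  set g : (Fin (N - N₀) → Bool) → Bool := fun z => decide (orc N (app a z) ∈ EWit n) with hg
  obtain ⟨R, hR⟩ : ∃ R : Bool → Bool → Prop, ∀ b c, R b c ↔ b = !c := ⟨_, fun _ _ => Iff.rfl⟩
  obtain ⟨E, hE⟩ : ∃ E : (Fin (N - N₀) → Bool) → Prop, ∀ z, E z ↔ R (f z) (g z) :=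
    ⟨_, fun _ => Iff.rfl⟩
  have hEiff : ∀ z, E z ↔ (orc N (app a z) ∈ Acc ↔ orc N (app a z) ∉ EWit n) := by
    intro z
    rw [hE, hR, hf, hg]
    dsimp only
    by_cases h1 : orc N (app a z) ∈ Acc <;> by_cases h2 : orc N (app a z) ∈ EWit n <;>
      simp [h1, h2]
  have happ : ∀ A : Oracle, pre N₀ A = a → app a (fun i : Fin (N - N₀) => A (str (N₀ + i.1))) =
      pre N A := by
    intro A hA
    funext i
    unfold app
    by_cases hi : i.1 < N₀
    · rw [dif_pos hi, ← hA]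
      rfl
    · rw [dif_neg hi]
      have : N₀ + (i.1 - N₀) = i.1 := by omega
      simp only [this]
      rfl
  have hEA : ∀ A : Oracle, pre N₀ A = a → (E (fun i : Fin (N - N₀) => A (str (N₀ + i.1))) ↔
      (A ∈ Acc ↔ A ∉ EWit n)) := by
    intro A hA
    rw [hEiff, happ A hA, dep_orc hd, dep_orc hd']
  have hgame := game (wt' μ) (fun σ => ENNReal.toReal_nonneg) (wt'_add μ) h0 (by linarith) (N - N₀)
    (List.ofFn a) (fun τ b h1 h2 => by
      rw [List.length_ofFn] at h1 h2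
      have h3 := hb τ b h1 (by omega)
      unfold wt'
      have h4 := ENNReal.toReal_mono (ENNReal.mul_ne_top ENNReal.ofReal_ne_top
        (measure_ne_top μ _)) h3
      rw [ENNReal.toReal_mul, ENNReal.toReal_ofReal (by linarith)] at h4
      exact h4) E
  have hfair := fair_ex hN₀ a (dep_fin hd) (fun A h => by
    obtain ⟨T, hT, h'⟩ := hA A h
    exact ⟨T, by omega, h'⟩) E hEA
  have hadv := adv (f := f) (g := g) (t := t) (t' := n + 1) ht (by omega) (cert_of hA a)
    (cert_of (cert_wit n) a) (q := 2 * δ) (by linarith) hδ' R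
  have hnum : Ex (wq (2 * δ)) (fun ρ : Restr (Fin (N - N₀)) =>
      if ∃ x, E (ov ρ x) then (1 : ℝ) else 0) ≤ 1 - 1 / 1536 := by
    have e1 : (fun ρ : Restr (Fin (N - N₀)) => if ∃ x, E (ov ρ x) then (1 : ℝ) else 0) =
        fun ρ => if ∃ x, R (f (ov ρ x)) (g (ov ρ x)) then (1 : ℝ) else 0 := by
      funext ρ
      exact if_congr (exists_congr fun x => hE _) rfl rfl
    have e2 : (fun z : Fin (N - N₀) → Bool => if E z then (1 : ℝ) else 0) =
        fun z => if R (f z) (g z) then (1 : ℝ) else 0 := by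
      funext z
      exact if_congr (hE _) rfl rfl
    rw [e1]
    rw [e2] at hfair
    refine hadv.trans ?_
    have e3 : 12 * (t : ℝ) * (2 * δ) + 12 * ((n + 1 : ℕ) : ℝ) * (2 * δ) =
        24 * (t + (n + 1)) * δ := by
      push_cast
      ring
    linarith
  have hsub : {A | pre N₀ A = a ∧ (A ∈ Acc ↔ A ∉ EWit n)} ⊆
      ⋃ z ∈ (Finset.univ.filter E), {A | Extends A (List.ofFn a ++ List.ofFn z)} := by
    rintro A ⟨h1, h2⟩
    rw [Set.mem_iUnion₂]
    refine ⟨fun i : Fin (N - N₀) => A (str (N₀ + i.1)),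
      Finset.mem_filter.2 ⟨Finset.mem_univ _, (hEA A h1).2 h2⟩, ?_⟩
    show Extends A (List.ofFn a ++ List.ofFn _)
    rw [ext_append, ext_ofFn]
    refine ⟨h1, fun i hi => ?_⟩
    rw [List.getElem_ofFn, List.length_ofFn]
  refine (measure_mono hsub).trans ((measure_biUnion_finset_le _ _).trans ?_)
  have h1 : ∑ z ∈ Finset.univ.filter E, μ {A | Extends A (List.ofFn a ++ List.ofFn z)} =
      ENNReal.ofReal (∑ z : Fin (N - N₀) → Bool,
        (if E z then wt' μ (List.ofFn a ++ List.ofFn z) else 0)) := by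
    rw [← Finset.sum_filter, ENNReal.ofReal_sum_of_nonneg
      (f := fun z => wt' μ (List.ofFn a ++ List.ofFn z)) (fun _ _ => ENNReal.toReal_nonneg)]
    refine Finset.sum_congr rfl fun z _ => ?_
    unfold wt'
    rw [ENNReal.ofReal_toReal (measure_ne_top _ _)]
  rw [h1]
  have h2 : μ {A | pre N₀ A = a} = ENNReal.ofReal (wt' μ (List.ofFn a)) := by
    unfold wt'
    rw [ENNReal.ofReal_toReal (measure_ne_top _ _)]
    congr 1
    ext A
    exact ext_ofFn.symm
  rw [h2, ← ENNReal.ofReal_mul (by norm_num)]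
  apply ENNReal.ofReal_le_ofReal
  refine hgame.trans ?_
  rw [mul_comm (1 - 1 / 1536 : ℝ)]
  exact mul_le_mul_of_nonneg_left hnum ENNReal.toReal_nonneg

end Pool.Agent.TH680.EB
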